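import Pool.Agent.Helper66.GP.Kit
import Pool.Agent.Helper22.SC.K14
import Pool.Agent.Helper96.SC.G2

/-! # MP_d59a59_lc: modules P3 (countable closure) and P4 (no new reals) -/

universe u

namespace Pool.Agent.Helper13.GP

open ZFSet Pool.Agent.Helper66.SC Pool.Agent.Helper22.SC Pool.Agent.Helper66.GP

theorem P3_PG (hP1 : ST_P1.{u}) {M A : Set ZFSet.{u}} (hM : IsZF M A) :
    PG M ∈ M ∧ ∅ ∈ PG M ∧ ∀ p, (p ∈ PG M ↔ IsP M p) :=
  hP1.2.2.2.2.2.2.2.2.2 M A hM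

theorem P3_om : oz Ordinal.omega0.{u} = ZFSet.omega := omega_eq.symm

/-- countable unions of countable sets -/
theorem P3_ctb (hVO : ST_VO.{u}) {M : Set ZFSet.{u}} (hM : IsZF M ∅) (hW : WO M)
    {c : ZFSet.{u}} (hc : c ∈ M) (h1 : CardLe M c ZFSet.omega)
    (h2 : ∀ x ∈ c, CardLe M x ZFSet.omega) : CardLe M (sUnion c) ZFSet.omega := by
  have h := st_K4 M ∅ hM hW c hc ZFSet.omega hM.omega ZFSet.omega hM.omega h1 h2
  exact cardLe_trans hM (hM.sUnion c hc) h (hVO.2.2.2.2.2.2.2.2 M ∅ hM hW).2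

/-- P3. -/
theorem st_P3 (hP1 : ST_P1.{u}) (hVO : ST_VO.{u}) : ST_P3.{u} := by
  intro M hM hW c hc hcR hchain hcard hne
  obtain ⟨hPGM, h0, hiff⟩ := P3_PG hP1 hM
  rw [P3_om] at hcard
  have hcP : ∀ p ∈ c, IsP M p := fun p hp => (hiff p).1 (hcR hp)
  rw [hiff]
  refine ⟨hM.sUnion c hc, P3_ctb hVO hM hW hc hcard (fun p hp => (hcP p hp).2.1), ?_, ?_⟩
  · intro t ht
    obtain ⟨p, hp, htp⟩ := ZFSet.mem_sUnion.1 ht
    exact (hcP p hp).2.2.1 t htp
  · intro x s x' s' z h1 h2 hz hle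
    obtain ⟨p, hp, h1⟩ := ZFSet.mem_sUnion.1 h1
    obtain ⟨q, hq, h2⟩ := ZFSet.mem_sUnion.1 h2
    rcases hchain p hp q hq with h | h
    · exact (hcP q hq).2.2.2 x s x' s' z (h h1) h2 hz hle
    · exact (hcP p hp).2.2.2 x s x' s' z h1 (h h2) hz hle

/-- P4. -/
theorem st_P4 (hP1 : ST_P1.{u}) (hVO : ST_VO.{u}) (hP3 : ST_P3.{u}) : ST_P4.{u} := by
  intro M H hM hH x hx hxV
  obtain ⟨hPGM, h0, hiff⟩ := P3_PG hP1 hM.zf
  have hE := st_KE M (PG M) H hM hPGM hH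
  have hVOM : VO ∈ M := (hVO.2.2.2.2.2.2.2.1 M ∅ hM.zf).1
  obtain ⟨f, hf, _, hf2, hf3⟩ := cardLe_iff.1 (hVO.2.2.2.2.2.2.2.2 M ∅ hM.zf hM.wo).1
  -- the image of `x`
  let X : ZFSet.{u} := Pool.Agent.Helper66.SC.img x (fun z => Pool.Agent.Helper22.SC.app f z)
  have hXE : X ∈ Ext M H := by
    have hU : U KZ.{u} (fun _ _ (a : ZFSet.{u} × ZFSet.{u}) =>
        Pool.Agent.Helper66.SC.img a.1 (fun z => Pool.Agent.Helper22.SC.app a.2 z)) := by
      apply_rules (transparency := .reducible) (maxDepth := 400) using is_poly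
    have := hU.closed hE.zf (a := (x, f)) (by simp [hx, sub_ext hM hPGM hH hf])
    exact in_zfset.1 this
  have hXω : X ⊆ oz Ordinal.omega0.{u} := by
    intro z hz
    obtain ⟨y, hy, rfl⟩ := mem_img.1 hz
    rw [P3_om]
    exact hf2 y (hxV hy)
  have hQM : ({∅} : ZFSet.{u}) ∈ M := by
    have hU : U KZ.{u} (fun _ _ (_ : PUnit.{u + 2}) => ({∅} : ZFSet.{u})) := by
      apply_rules (transparency := .reducible) (maxDepth := 400) using is_poly
    exact in_zfset.1 (hU.closed hM.zf (a := ⟨⟩) (by simp))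
  have hsplit : Split M (PG M) {∅} (PG M) := by
    refine ⟨hPGM, hQM, hPGM, ZFSet.mem_singleton.2 rfl, h0, ?_, ?_, ?_⟩
    · intro b hb q hq
      rw [ZFSet.mem_singleton.1 hb]
      have : (∅ : ZFSet.{u}) ∪ q = q := by ext z; simp
      rw [this]; exact hq
    · intro p hp
      refine ⟨∅, ZFSet.mem_singleton.2 rfl, p, hp, ?_⟩
      ext z; simp
    · intro b hb b' hb' q hq q' hq' h
      rw [ZFSet.mem_singleton.1 hb, ZFSet.mem_singleton.1 hb'] at *
      refine ⟨fun z hz => hz, fun z hz => ?_⟩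
      have := h (ZFSet.mem_union.2 (Or.inr hz))
      rcases ZFSet.mem_union.1 this with h | h
      · exact absurd h (ZFSet.notMem_empty z)
      · exact h
  have hωM : oz Ordinal.omega0.{u} ∈ M := by rw [P3_om]; exact hM.zf.omega
  have hcard : CardLe M ((oz Ordinal.omega0.{u}).prod {∅}) (oz Ordinal.omega0.{u}) := by
    refine cardLe_of_gr (g := fun z => Pool.Agent.Helper22.SC.pfst z) ?_ ?_ ?_
    · have hU : U KZ.{u} (fun _ _ (a : ZFSet.{u} × ZFSet.{u}) =>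
          Pool.Agent.Helper22.SC.gr (a.1.prod a.2) (fun z => Pool.Agent.Helper22.SC.pfst z)) := by
        apply_rules (transparency := .reducible) (maxDepth := 400) using is_poly
      have := hU.closed hM.zf (a := (oz Ordinal.omega0.{u}, ({∅} : ZFSet.{u}))) (by
        simp [hωM, hQM])
      exact in_zfset.1 this
    · intro z hz
      obtain ⟨a, ha, b, hb, rfl⟩ := ZFSet.mem_prod.1 hz
      rw [pfst_pair]; exact ha
    · intro z hz z' hz' h
      obtain ⟨a, ha, b, hb, rfl⟩ := ZFSet.mem_prod.1 hz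
      obtain ⟨a', ha', b', hb', rfl⟩ := ZFSet.mem_prod.1 hz'
      rw [pfst_pair, pfst_pair] at h
      rw [ZFSet.mem_singleton.1 hb, ZFSet.mem_singleton.1 hb', h]
  obtain ⟨σ, hσ, hσ2, hσ3⟩ := Pool.Agent.Helper96.SC.st_G2 FB2 FB3 M (PG M) {∅} (PG M) H
    Ordinal.omega0 Ordinal.omega0 hM.zf hM.wo hsplit hH hωM hωM hcard (hP3 M hM.zf hM.wo)
    X hXE hXω
  have hxeq : x = VO.sep (fun z => pair (Pool.Agent.Helper22.SC.app f z) ∅ ∈ σ) := by
    ext z
    rw [ZFSet.mem_sep]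
    constructor
    · intro hz
      refine ⟨hxV hz, ?_⟩
      have h1 : Pool.Agent.Helper22.SC.app f z ∈ X := mem_img.2 ⟨z, hz, rfl⟩
      obtain ⟨b, _, hb, h2⟩ := (hσ3 _ (hXω h1)).1 h1
      rw [ZFSet.mem_singleton.1 hb] at h2
      exact h2
    · rintro ⟨hz, h⟩
      have h1 : Pool.Agent.Helper22.SC.app f z ∈ X := by
        refine (hσ3 _ ?_).2 ⟨∅, hH.top, ZFSet.mem_singleton.2 rfl, h⟩
        rw [P3_om]; exact hf2 z hz
      obtain ⟨y, hy, h2⟩ := mem_img.1 h1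
      rw [hf3 z hz y (hxV hy) h2.symm]
      exact hy
  rw [hxeq]
  have hU : U KZ.{u} (fun _ _ (a : (ZFSet.{u} × ZFSet.{u}) × ZFSet.{u}) =>
      a.1.1.sep (fun z => pair (Pool.Agent.Helper22.SC.app a.1.2 z) ∅ ∈ a.2)) := by
    apply_rules (transparency := .reducible) (maxDepth := 400) using is_poly
  have := hU.closed hM.zf (a := ((VO, f), σ)) (by simp [hVOM, hf, hσ])
  exact in_zfset.1 this

end Pool.Agent.Helper13.GP
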