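import Pool.Agent.Helper13.GP.P3

/-! # MP_d59a59_lc: module P5 (the generic object) -/

universe u

namespace Pool.Agent.Helper13.GP

open ZFSet Pool.Agent.Helper66.SC Pool.Agent.Helper22.SC Pool.Agent.Helper66.GP

theorem P5_memCP {p c : ZFSet.{u}} : c ∈ CP p ↔ ∃ t ∈ p, c ∈ psnd t := by
  unfold CP
  rw [ZFSet.mem_sUnion]
  constructor
  · rintro ⟨z, hz, hc⟩
    obtain ⟨t, ht, rfl⟩ := mem_img.1 hz
    exact ⟨t, ht, hc⟩
  · rintro ⟨t, ht, hc⟩
    exact ⟨psnd t, mem_img.2 ⟨t, ht, rfl⟩, hc⟩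

theorem P5_memCP' {p c : ZFSet.{u}} {N : Set ZFSet.{u}} (hp : IsP N p) :
    c ∈ CP p ↔ ∃ x s, pair x s ∈ p ∧ c ∈ s := by
  rw [P5_memCP]
  constructor
  · rintro ⟨t, ht, hc⟩
    obtain ⟨x, s, rfl, _⟩ := hp.2.2.1 t ht
    rw [psnd_pair] at hc
    exact ⟨x, s, ht, hc⟩
  · rintro ⟨x, s, ht, hc⟩
    refine ⟨_, ht, ?_⟩
    rwa [psnd_pair]

theorem P5_LeF_refl {x : ZFSet.{u}} (hx : FF x) : LeF x x := by
  intro n m m' h h'
  obtain ⟨w, hw, hu⟩ := hx.2 n (pair_mem_prod.1 (hx.1 h)).1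
  rw [hu m h, hu m' h']

/-- the set `{c' ∈ CP p : c' ≤ c} ∪ {c}`. -/
noncomputable def P5_sc (p c : ZFSet.{u}) : ZFSet.{u} :=
  (CP p).sep (fun c' => LeF c' c) ∪ {c}

/-- `CP p` is countable. -/
theorem P5_CPctb (hP1 : ST_P1.{u}) (hVO : ST_VO.{u}) {M : Set ZFSet.{u}} (hM : IsZF M ∅)
    (hW : WO M) {p : ZFSet.{u}} (hp : IsP M p) : CP p ∈ M ∧ CardLe M (CP p) ZFSet.omega := by
  have hCP : CP p ∈ M := in_zfset.1 (hP1.2.2.1.closed hM (a := p) (by simpa using hp.1))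
  have him : Pool.Agent.Helper66.SC.img p psnd ∈ M := by
    have hU : U KZ.{u} (fun _ _ (a : ZFSet.{u}) =>
        Pool.Agent.Helper66.SC.img a (fun z => Pool.Agent.Helper22.SC.psnd z)) := by
      apply_rules (transparency := .reducible) (maxDepth := 400) using is_poly
    exact in_zfset.1 (hU.closed hM (a := p) (by simpa using hp.1))
  refine ⟨hCP, P3_ctb hVO hM hW him ?_ ?_⟩
  · -- the image of a countable set
    have hs : gr p (fun z => psnd z) ∈ M := by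
      have hU : U KZ.{u} (fun _ _ (a : ZFSet.{u}) =>
          Pool.Agent.Helper22.SC.gr a (fun z => Pool.Agent.Helper22.SC.psnd z)) := by
        apply_rules (transparency := .reducible) (maxDepth := 400) using is_poly
      exact in_zfset.1 (hU.closed hM (a := p) (by simpa using hp.1))
    have h := st_K2 M ∅ hM p hp.1 (Pool.Agent.Helper66.SC.img p psnd) him _ hs
      Ordinal.omega0 (by rw [P3_om]; exact hM.omega) (by rw [P3_om]; exact hp.2.1) ?_ ?_
    · rw [P3_om] at h; exact h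
    · intro x y z h1 h2
      rw [(pair_mem_gr.1 h1).2, (pair_mem_gr.1 h2).2]
    · intro y hy
      obtain ⟨t, ht, rfl⟩ := mem_img.1 hy
      exact ⟨t, ht, pair_mem_gr.2 ⟨ht, rfl⟩⟩
  · intro s hs
    obtain ⟨t, ht, rfl⟩ := mem_img.1 hs
    obtain ⟨x, s, rfl, _, h, _⟩ := hp.2.2.1 t ht
    rw [psnd_pair]; exact h

open Classical in
/-- countability of `x ∪ {a}`. -/
theorem P5_ins (hVO : ST_VO.{u}) {M : Set ZFSet.{u}} (hM : IsZF M ∅)
    (hW : WO M) {x a : ZFSet.{u}} (hx : x ∈ M) (ha : a ∈ M) (h : CardLe M x ZFSet.omega) :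
    x ∪ {a} ∈ M ∧ CardLe M (x ∪ {a}) ZFSet.omega := by
  have hsa : ({a} : ZFSet.{u}) ∈ M := by
    have hU : U KZ.{u} (fun _ _ (a : ZFSet.{u}) => ({a} : ZFSet.{u})) := by
      apply_rules (transparency := .reducible) (maxDepth := 400) using is_poly
    exact in_zfset.1 (hU.closed hM (a := a) (by simpa using ha))
  have hU2 : U KZ.{u} (fun _ _ (a : ZFSet.{u} × ZFSet.{u}) =>
      ZFSet.sUnion ({a.1, {a.2}} : ZFSet.{u})) := by
    apply_rules (transparency := .reducible) (maxDepth := 400) using is_poly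
  have hpr : ({x, {a}} : ZFSet.{u}) ∈ M := hM.pair x hx _ hsa
  have heq : x ∪ {a} = ZFSet.sUnion ({x, {a}} : ZFSet.{u}) := by
    ext z
    simp
  rw [heq]
  -- 
  have hnat : ∀ n : ℕ, nz.{u} n ∈ ZFSet.omega := fun n => nat_mem_omega n
  have hone : CardLe M ({a} : ZFSet.{u}) ZFSet.omega := by
    refine cardLe_of_gr (g := fun _ => nz 0) ?_ (fun _ _ => hnat 0) ?_
    · have hU : U KZ.{u} (fun _ _ (a : ZFSet.{u}) =>
          Pool.Agent.Helper22.SC.gr a (fun z => nz 0)) := by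
        apply_rules (transparency := .reducible) (maxDepth := 400) using is_poly
      exact in_zfset.1 (hU.closed hM (a := ({a} : ZFSet.{u})) (by simpa using hsa))
    · intro z hz z' hz' _
      rw [ZFSet.mem_singleton.1 hz, ZFSet.mem_singleton.1 hz']
  refine ⟨hM.sUnion _ hpr, P3_ctb hVO hM hW hpr ?_ ?_⟩
  · refine cardLe_of_gr (g := fun z => if z = x then nz 0 else nz 1) ?_ ?_ ?_
    · have hU : U KZ.{u} (fun _ _ (a : ZFSet.{u} × ZFSet.{u}) =>
          Pool.Agent.Helper22.SC.gr a.2 (fun z => if z = a.1 then nz 0 else nz 1)) := by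
        apply U.gr
        · apply_rules (transparency := .reducible) (maxDepth := 400) using is_poly
        · apply U.ite
          all_goals apply_rules (transparency := .reducible) (maxDepth := 400) using is_poly
      exact in_zfset.1 (hU.closed hM (a := (x, ({x, {a}} : ZFSet.{u}))) (by simp [hpr, hx]))
    · intro z _
      split_ifs
      · exact hnat 0
      · exact hnat 1
    · intro z hz z' hz' hzz
      have h01 : (nz 0 : ZFSet.{u}) ≠ nz 1 := by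
        intro h
        have := Ordinal.toZFSet_injective h
        exact absurd this (by norm_num)
      rcases ZFSet.mem_pair.1 hz with h1 | h1 <;> rcases ZFSet.mem_pair.1 hz' with h2 | h2
      · rw [h1, h2]
      · by_cases h3 : z' = x
        · rw [h1, h3]
        · simp only [h1, h3, if_true, if_false] at hzz
          exact absurd hzz h01
      · by_cases h3 : z = x
        · rw [h2, h3]
        · simp only [h2, h3, if_true, if_false] at hzz
          exact absurd hzz.symm h01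
      · rw [h1, h2]
  · intro z hz
    rcases ZFSet.mem_pair.1 hz with h1 | h1
    · rw [h1]; exact h
    · rw [h1]; exact hone

/-- adding a new function `c` which is not bounded by elements of the domain. -/
theorem P5_add (hP1 : ST_P1.{u}) (hVO : ST_VO.{u}) {M : Set ZFSet.{u}} (hM : IsZF M ∅)
    (hW : WO M) {p c : ZFSet.{u}} (hp : IsP M p) (hc : c ∈ M) (hcF : FF c)
    (hn : ∀ x s, pair x s ∈ p → ¬ LeF c x) : IsP M (p ∪ {pair c (P5_sc p c)}) := by
  obtain ⟨hCP, hCPc⟩ := P5_CPctb hP1 hVO hM hW hp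
  have hs1 : (CP p).sep (fun c' => LeF c' c) ∈ M := by
    have hle := hP1.2.2.2.2.2.2.2.2.1
    have hU : U KZ.{u} (fun _ _ (a : ZFSet.{u} × ZFSet.{u}) =>
        a.1.sep (fun c' => LeF c' a.2)) := by
      refine U.sep (R := fun _ _ (a : ZFSet.{u} × ZFSet.{u}) z => LeF z a.2) ?_ ?_
      · apply_rules (transparency := .reducible) (maxDepth := 400) using is_poly
      · exact hle.comp (U.id.snd.prodMk U.id.fst.snd)
    exact in_zfset.1 (hU.closed hM (a := (CP p, c)) (by simp [hCP, hc]))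
  have hs1c : CardLe M ((CP p).sep (fun c' => LeF c' c)) ZFSet.omega :=
    cardLe_trans hM hs1 (cardLe_subset hM hs1 (fun z hz => (ZFSet.mem_sep.1 hz).1)) hCPc
  obtain ⟨hsc, hscc⟩ := P5_ins hVO hM hW hs1 hc hs1c
  have hpr : pair c (P5_sc p c) ∈ M := hM.pair_mem hc hsc
  obtain ⟨hq, hqc⟩ := P5_ins hVO hM hW hp.1 hpr hp.2.1
  have hmsc : ∀ z, z ∈ P5_sc p c ↔ (z ∈ CP p ∧ LeF z c) ∨ z = c := by
    intro z
    unfold P5_sc
    rw [ZFSet.mem_union, ZFSet.mem_sep, ZFSet.mem_singleton]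
  refine ⟨hq, hqc, ?_, ?_⟩
  · intro t ht
    rcases ZFSet.mem_union.1 ht with h | h
    · exact hp.2.2.1 t h
    · refine ⟨c, P5_sc p c, ZFSet.mem_singleton.1 h, hcF, hscc, ?_⟩
      intro z hz
      rcases (hmsc z).1 hz with ⟨h1, h2⟩ | h1
      · obtain ⟨x, s, hxs, hzs⟩ := (P5_memCP' hp).1 h1
        obtain ⟨x', s', he, _, _, h3⟩ := hp.2.2.1 _ hxs
        obtain ⟨rfl, rfl⟩ := pair_inj.1 he
        exact ⟨(h3 z hzs).1, h2⟩
      · rw [h1]; exact ⟨hcF, P5_LeF_refl hcF⟩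
  · intro x s x' s' z h1' h2' hz hle
    rcases ZFSet.mem_union.1 h1' with h1 | h1 <;> rcases ZFSet.mem_union.1 h2' with h2 | h2
    · exact hp.2.2.2 x s x' s' z h1 h2 hz hle
    · obtain ⟨rfl, rfl⟩ := pair_inj.1 (ZFSet.mem_singleton.1 h2)
      exact (hmsc z).2 (Or.inl ⟨(P5_memCP' hp).2 ⟨x, s, h1, hz⟩, hle⟩)
    · obtain ⟨rfl, rfl⟩ := pair_inj.1 (ZFSet.mem_singleton.1 h1)
      rcases (hmsc z).1 hz with ⟨h3, _⟩ | h3
      · obtain ⟨x2, s2, h4, h5⟩ := (P5_memCP' hp).1 h3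
        exact hp.2.2.2 x2 s2 x' s' z h4 h2 h5 hle
      · rw [h3] at hle
        exact absurd hle (hn x' s' h2)
    · obtain ⟨rfl, rfl⟩ := pair_inj.1 (ZFSet.mem_singleton.1 h1)
      obtain ⟨rfl, rfl⟩ := pair_inj.1 (ZFSet.mem_singleton.1 h2)
      exact hz

theorem P5_nz_inj {m n : ℕ} (h : nz.{u} m = nz n) : m = n := by
  have := Ordinal.toZFSet_injective h
  exact_mod_cast this

theorem P5_nz_mem {m n : ℕ} : nz.{u} m ∈ nz n ↔ m < n := by
  rw [Ordinal.toZFSet_mem_toZFSet_iff]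
  exact Nat.cast_lt

theorem P5_nz_sub {m n : ℕ} : nz.{u} m ⊆ nz n ↔ m ≤ n := by
  rw [Ordinal.toZFSet_subset_toZFSet_iff]
  exact Nat.cast_le

/-- the set of odd numbers -/
theorem P5_odd (hP1 : ST_P1.{u}) {M : Set ZFSet.{u}} (hM : IsZF M ∅) :
    ∃ O ∈ M, ∀ m : ℕ, nz.{u} m ∈ O ↔ Odd m := by
  refine ⟨par (gr ZFSet.omega (fun z => z)), ?_, fun m => ?_⟩
  · have h1 : gr ZFSet.omega (fun z => z) ∈ M := by
      have hU : U KZ.{u} (fun _ _ (a : ZFSet.{u}) =>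
          Pool.Agent.Helper22.SC.gr a (fun z => z)) := by
        apply_rules (transparency := .reducible) (maxDepth := 400) using is_poly
      exact in_zfset.1 (hU.closed hM (a := ZFSet.omega) (by simpa using hM.omega))
    exact in_zfset.1 (hP1.2.2.2.2.1.closed hM (a := gr ZFSet.omega (fun z => z))
      (by simpa using h1))
  · unfold par
    rw [ZFSet.mem_sep]
    constructor
    · rintro ⟨_, n, k, h1, h2, h3⟩
      have h4 := P5_nz_inj h1
      have h5 := P5_nz_inj (pair_mem_gr.1 h2).2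
      rw [h4, ← h5]; exact h3
    · intro h
      exact ⟨nat_mem_omega m, m, m, rfl, pair_mem_gr.2 ⟨nat_mem_omega m, rfl⟩, h⟩

/-- the relation defining the new function -/
def P5_Phi (y O p f n m : ZFSet.{u}) : Prop :=
  (n ∈ y ↔ m ∈ O) ∧ ∀ t ∈ p, app f t ⊆ n → app (pfst t) n ∈ m

/-- the new function -/
noncomputable def P5_c (y O p f w : ZFSet.{u}) : ZFSet.{u} :=
  (w.prod w).sep (fun z => P5_Phi y O p f (pfst z) (psnd z) ∧
    ∀ m' ∈ psnd z, ¬ P5_Phi y O p f (pfst z) m')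

theorem P5_Uc : U KZ.{u} (fun _ _ (a : (((ZFSet.{u} × ZFSet.{u}) × ZFSet.{u}) × ZFSet.{u}) ×
    ZFSet.{u}) => P5_c a.1.1.1.1 a.1.1.1.2 a.1.1.2 a.1.2 a.2) := by
  unfold P5_c P5_Phi
  apply_rules (transparency := .reducible) (maxDepth := 400) using is_poly

theorem P5_exists (hP1 : ST_P1.{u}) {M : Set ZFSet.{u}} (hM : IsZF M ∅)
    {p y : ZFSet.{u}} (hp : IsP M p) (hy : y ∈ M) (hyω : y ⊆ ZFSet.omega) :
    ∃ c ∈ M, FF c ∧ par c = y ∧ ∀ x s, pair x s ∈ p → ¬ LeF c x := by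
  obtain ⟨O, hO, hO'⟩ := P5_odd hP1 hM
  obtain ⟨f, hf, _, hf2, hf3⟩ := cardLe_iff.1 hp.2.1
  have hc : P5_c y O p f ZFSet.omega ∈ M := in_zfset.1 (P5_Uc.closed hM
    (a := ((((y, O), p), f), ZFSet.omega)) (by simp [hy, hO, hp.1, hf, hM.omega]))
  -- boundedness
  have hbd : ∀ n j : ℕ, ∃ N : ℕ, ∀ t ∈ p, (∃ i < j, app f t = nz i) →
      ∃ k < N, app (pfst t) (nz n) = nz k := by
    intro n j
    induction j with
    | zero => exact ⟨0, fun t _ h => by obtain ⟨i, hi, _⟩ := h; omega⟩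
    | succ j ih =>
      obtain ⟨N, hN⟩ := ih
      by_cases hex : ∃ t ∈ p, app f t = nz j
      · obtain ⟨t0, ht0, ht0'⟩ := hex
        obtain ⟨x, s, rfl, hx, _⟩ := hp.2.2.1 t0 ht0
        obtain ⟨k0, hk0⟩ := mem_omega.1 (app_mem_of_isFunc hx (nat_mem_omega n)).1
        refine ⟨max N (k0 + 1), fun t ht h => ?_⟩
        obtain ⟨i, hi, hti⟩ := h
        rcases Nat.lt_succ_iff_lt_or_eq.1 hi with h1 | h1
        · obtain ⟨k, hk, hk'⟩ := hN t ht ⟨i, h1, hti⟩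
          exact ⟨k, lt_of_lt_of_le hk (le_max_left _ _), hk'⟩
        · rw [h1] at hti
          have := hf3 t ht _ ht0 (hti.trans ht0'.symm)
          rw [this, pfst_pair]
          exact ⟨k0, lt_of_lt_of_le (Nat.lt_succ_self _) (le_max_right _ _), hk0⟩
      · refine ⟨N, fun t ht h => ?_⟩
        obtain ⟨i, hi, hti⟩ := h
        rcases Nat.lt_succ_iff_lt_or_eq.1 hi with h1 | h1
        · exact hN t ht ⟨i, h1, hti⟩
        · exact absurd ⟨t, ht, h1 ▸ hti⟩ hex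
  have hex : ∀ n : ℕ, ∃ m : ℕ, P5_Phi y O p f (nz n) (nz m) := by
    intro n
    obtain ⟨N, hN⟩ := hbd n (n + 1)
    have key : ∀ m, N ≤ m → ∀ t ∈ p, app f t ⊆ nz n → app (pfst t) (nz n) ∈ nz m := by
      intro m hm t ht h
      obtain ⟨i, hi⟩ := mem_omega.1 (hf2 t ht)
      rw [hi] at h
      have h1 := P5_nz_sub.1 h
      obtain ⟨k, hk, hk'⟩ := hN t ht ⟨i, by omega, hi⟩
      rw [hk']
      exact P5_nz_mem.2 (lt_of_lt_of_le hk hm)
    by_cases hny : nz.{u} n ∈ y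
    · refine ⟨2 * N + 1, ⟨fun _ => (hO' _).2 ⟨N, rfl⟩, fun _ => hny⟩, key _ (by omega)⟩
    · refine ⟨2 * N, ⟨fun h => absurd h hny, fun h => ?_⟩, key _ (by omega)⟩
      obtain ⟨r, hr⟩ := (hO' _).1 h
      omega
  have hval : ∀ n : ℕ, ∃ m : ℕ, pair (nz n) (nz m) ∈ P5_c y O p f ZFSet.omega ∧
      P5_Phi y O p f (nz n) (nz m) ∧
      ∀ w, pair (nz n) w ∈ P5_c y O p f ZFSet.omega → w = nz m := by
    intro n
    classical
    have hfind := Nat.find_spec (hex n)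
    have hmin : ∀ m' : ℕ, m' < Nat.find (hex n) → ¬ P5_Phi y O p f (nz n) (nz m') :=
      fun m' hm' => Nat.find_min (hex n) hm'
    refine ⟨Nat.find (hex n), ?_, hfind, ?_⟩
    · unfold P5_c
      rw [ZFSet.mem_sep]
      refine ⟨pair_mem_prod.2 ⟨nat_mem_omega _, nat_mem_omega _⟩, ?_⟩
      rw [pfst_pair, psnd_pair]
      refine ⟨hfind, fun m' hm' => ?_⟩
      obtain ⟨k, rfl⟩ := mem_omega.1 (isOrdinal_omega.isTransitive _ (nat_mem_omega _) hm')
      exact hmin k (P5_nz_mem.1 hm')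
    · intro w hw
      unfold P5_c at hw
      rw [ZFSet.mem_sep, pfst_pair, psnd_pair] at hw
      obtain ⟨h1, h2, h3⟩ := hw
      obtain ⟨k, rfl⟩ := mem_omega.1 (pair_mem_prod.1 h1).2
      have h4 : Nat.find (hex n) ≤ k := Nat.find_min' (hex n) h2
      rcases lt_or_eq_of_le h4 with h5 | h5
      · exact absurd hfind (h3 _ (P5_nz_mem.2 h5))
      · rw [h5]
        rfl
  refine ⟨_, hc, ⟨fun z hz => (ZFSet.mem_sep.1 hz).1, fun z hz => ?_⟩, ?_, ?_⟩
  · obtain ⟨n, rfl⟩ := mem_omega.1 hz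
    obtain ⟨m, h1, _, h3⟩ := hval n
    exact ⟨nz m, h1, fun w hw => h3 w hw⟩
  · ext k
    unfold par
    rw [ZFSet.mem_sep]
    constructor
    · rintro ⟨_, n, m, rfl, h1, h2⟩
      obtain ⟨m', h3, h4, h5⟩ := hval n
      have h6 := h5 _ h1
      rw [← h6] at h4
      exact h4.1.2 ((hO' m).2 h2)
    · intro hk
      obtain ⟨n, rfl⟩ := mem_omega.1 (hyω hk)
      obtain ⟨m, h3, h4, h5⟩ := hval n
      exact ⟨nat_mem_omega n, n, m, rfl, h3, (hO' m).1 (h4.1.1 hk)⟩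
  · intro x s hxs hle
    obtain ⟨x', s', he, hx, _⟩ := hp.2.2.1 _ hxs
    obtain ⟨rfl, rfl⟩ := pair_inj.1 he
    obtain ⟨k, hk⟩ := mem_omega.1 (hf2 _ hxs)
    obtain ⟨m, h3, h4, h5⟩ := hval k
    have h6 := h4.2 _ hxs (by rw [hk]; exact P5_nz_sub.2 (le_refl k))
    rw [pfst_pair] at h6
    have h7 := hle _ _ _ h3 (app_mem_of_isFunc hx (nat_mem_omega k)).2
    exact ZFSet.mem_irrefl _ (h7 h6)

/-- P5. -/
theorem st_P5 (hP1 : ST_P1.{u}) (hP2 : ST_P2.{u}) (hVO : ST_VO.{u}) : ST_P5.{u} := by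
  intro M H hM hH
  obtain ⟨hPGM, h0, hiff⟩ := P3_PG hP1 hM.zf
  have hHP : ∀ p ∈ H, IsP M p := fun p hp => (hiff p).1 (hH.sub hp)
  have hmem : ∀ c, c ∈ CP (ZFSet.sUnion H) ↔ ∃ p ∈ H, ∃ x s, pair x s ∈ p ∧ c ∈ s := by
    intro c
    rw [P5_memCP]
    constructor
    · rintro ⟨t, ht, hc⟩
      obtain ⟨p, hp, htp⟩ := ZFSet.mem_sUnion.1 ht
      obtain ⟨x, s, rfl, _⟩ := (hHP p hp).2.2.1 t htp
      rw [psnd_pair] at hc
      exact ⟨p, hp, x, s, htp, hc⟩
    · rintro ⟨p, hp, x, s, ht, hc⟩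
      refine ⟨_, ZFSet.mem_sUnion.2 ⟨p, hp, ht⟩, ?_⟩
      rwa [psnd_pair]
  have h3 : ∀ p ∈ H, ∀ x s, pair x s ∈ p → ∀ c,
      (c ∈ s ↔ c ∈ CP (ZFSet.sUnion H) ∧ LeF c x) := by
    intro p hp x s hxs c
    constructor
    · intro hc
      refine ⟨(hmem c).2 ⟨p, hp, x, s, hxs, hc⟩, ?_⟩
      obtain ⟨x', s', he, _, _, h⟩ := (hHP p hp).2.2.1 _ hxs
      obtain ⟨rfl, rfl⟩ := pair_inj.1 he
      exact (h c hc).2
    · rintro ⟨hc, hle⟩
      obtain ⟨q, hq, x', s', hxs', hc'⟩ := (hmem c).1 hc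
      obtain ⟨r, hr, hpr, hqr⟩ := hH.dir p hp q hq
      exact (hHP r hr).2.2.2 x' s' x s c (hqr hxs') (hpr hxs) hc' hle
  refine ⟨?_, ?_, h3, ?_⟩
  · intro c hc
    obtain ⟨p, hp, x, s, hxs, hcs⟩ := (hmem c).1 hc
    obtain ⟨x', s', he, _, _, h⟩ := (hHP p hp).2.2.1 _ hxs
    obtain ⟨rfl, rfl⟩ := pair_inj.1 he
    refine ⟨(h c hcs).1, ?_⟩
    have h1 := (hM.zf.of_pair (hM.zf.trans _ (hHP p hp).1 _ hxs)).2
    exact hM.zf.trans _ h1 _ hcs
  · intro x hx hxF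
    -- density
    have hD : (PG M).sep (fun p => ∃ t ∈ p, pfst t = x) ∈ M := by
      have hU : U KZ.{u} (fun _ _ (a : ZFSet.{u} × ZFSet.{u}) =>
          a.1.sep (fun p => ∃ t ∈ p, pfst t = a.2)) := by
        apply_rules (transparency := .reducible) (maxDepth := 400) using is_poly
      exact in_zfset.1 (hU.closed hM.zf (a := (PG M, x)) (by simp [hPGM, hx]))
    have hsx : ({x} : ZFSet.{u}) ∈ M := by
      have hU : U KZ.{u} (fun _ _ (a : ZFSet.{u}) => ({a} : ZFSet.{u})) := by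
        apply_rules (transparency := .reducible) (maxDepth := 400) using is_poly
      exact in_zfset.1 (hU.closed hM.zf (a := x) (by simpa using hx))
    have hempty : CardLe M (∅ : ZFSet.{u}) ZFSet.omega :=
      cardLe_subset hM.zf (hM.zf.trans _ hPGM _ h0) (fun z hz => absurd hz
        (ZFSet.notMem_empty z))
    have hone : CardLe M ({x} : ZFSet.{u}) ZFSet.omega := by
      have h := (P5_ins hVO hM.zf hM.wo (hM.zf.trans _ hPGM _ h0) hx hempty).2
      have he : (∅ : ZFSet.{u}) ∪ {x} = {x} := by ext z; simp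
      rwa [he] at h
    obtain ⟨p, hp, hpD⟩ := hH.meets _ hD (fun z hz => (ZFSet.mem_sep.1 hz).1) (by
      intro p hp
      have hpP := (hiff p).1 hp
      obtain ⟨h1, _, h2⟩ := hP2 M ∅ hM.zf hM.wo p {x} hpP hsx hone (by
        intro z hz
        rw [ZFSet.mem_singleton.1 hz]; exact hxF)
      obtain ⟨s, hs⟩ := h2 x (ZFSet.mem_singleton.2 rfl)
      refine ⟨_, ZFSet.mem_sep.2 ⟨(hiff _).2 h1, _, hs, pfst_pair⟩, ?_⟩
      intro z hz
      unfold Xt
      exact ZFSet.mem_union.2 (Or.inl hz))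
    obtain ⟨_, t, ht, htx⟩ := ZFSet.mem_sep.1 hpD
    obtain ⟨x', s, rfl, _, hsc, _⟩ := (hHP p hp).2.2.1 t ht
    rw [pfst_pair] at htx
    subst htx
    refine ⟨s, ?_, hsc, h3 p hp _ s ht⟩
    exact (hM.zf.of_pair (hM.zf.trans _ (hHP p hp).1 _ ht)).2
  · intro y hy hyω
    have hD : (PG M).sep (fun p => ∃ c ∈ CP p, par c = y) ∈ M := by
      have hU : U KZ.{u} (fun _ _ (a : ZFSet.{u} × ZFSet.{u}) =>
          a.1.sep (fun p => ∃ c ∈ CP p, par c = a.2)) := by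
        refine U.sep (R := fun _ _ (a : ZFSet.{u} × ZFSet.{u}) p => ∃ c ∈ CP p, par c = a.2)
          ?_ ?_
        · apply_rules (transparency := .reducible) (maxDepth := 400) using is_poly
        · refine URel.bex (hP1.2.2.1.comp U.id.snd) ?_
          exact URel.eq (hP1.2.2.2.2.1.comp U.id.snd) U.id.fst.fst.snd
      exact in_zfset.1 (hU.closed hM.zf (a := (PG M, y)) (by simp [hPGM, hy]))
    obtain ⟨p, hp, hpD⟩ := hH.meets _ hD (fun z hz => (ZFSet.mem_sep.1 hz).1) (by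
      intro p hp
      have hpP := (hiff p).1 hp
      obtain ⟨c, hc, hcF, hcy, hcn⟩ := P5_exists hP1 hM.zf hpP hy hyω
      refine ⟨p ∪ {pair c (P5_sc p c)}, ZFSet.mem_sep.2 ⟨(hiff _).2
        (P5_add hP1 hVO hM.zf hM.wo hpP hc hcF hcn), c, ?_, hcy⟩, ?_⟩
      · refine P5_memCP.2 ⟨pair c (P5_sc p c), ZFSet.mem_union.2 (Or.inr
          (ZFSet.mem_singleton.2 rfl)), ?_⟩
        rw [psnd_pair]
        unfold P5_sc
        exact ZFSet.mem_union.2 (Or.inr (ZFSet.mem_singleton.2 rfl))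
      · intro z hz
        exact ZFSet.mem_union.2 (Or.inl hz))
    obtain ⟨_, c, hc, hcy⟩ := ZFSet.mem_sep.1 hpD
    refine ⟨c, ?_, hcy⟩
    obtain ⟨x, s, h1, h2⟩ := (P5_memCP' (hHP p hp)).1 hc
    exact (hmem c).2 ⟨p, hp, x, s, h1, h2⟩

end Pool.Agent.Helper13.GP
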