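import Pool.Agent.Helper66.GP.Kit

/-! # MP_d59a59_lc: module QU (quotient forcing) -/

universe u

namespace Pool.Agent.Helper13.GP

open ZFSet Pool.Agent.Helper66.SC Pool.Agent.Helper22.SC Pool.Agent.Helper66.GP

attribute [is_poly] Pool.Agent.Helper27.SC.u_val

/-- KT for uniformly definable relations. -/
theorem QU_kt {k : ℕ} {R : Set ZFSet.{u} → Set ZFSet.{u} → (Fin k → ZFSet.{u}) → Prop}
    (hR : URel KZ.{u} R) {M : Set ZFSet.{u}} {P G : ZFSet.{u}} (hM : Ctm M) (hP : P ∈ M)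
    (hG : IsGeneric M P G) (v : Fin k → ZFSet.{u}) (hv : ∀ i, v i ∈ M)
    (h : R (Ext M G) ∅ (fun i => val G (v i))) :
    ∃ p ∈ G, ∀ G', IsGeneric M P G' → p ∈ G' → R (Ext M G') ∅ (fun i => val G' (v i)) := by
  obtain ⟨φ, hφ⟩ := hR
  have key : ∀ G', IsGeneric M P G' → (R (Ext M G') ∅ (fun i => val G' (v i)) ↔
      Sat (Ext M G') ∅ φ (fun i => val G' (v i))) := by
    intro G' hG'
    exact hφ (Ext M G') ∅ (st_KE M P G' hM hP hG').zf _ (fun i => ⟨v i, hv i, rfl⟩)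
  obtain ⟨p, hp, hpf⟩ := st_KT M P G hM hP hG k φ v hv ((key G hG).1 h)
  exact ⟨p, hp, fun G' hG' hp' => (key G' hG').2 (hpf G' hG' hp')⟩

/-- the relation: `w 1` is a generic filter on `w 4` meeting all elements of `w 3`, and
no element of `w 0` is in the value of `w 2`. -/
def QU_rel (w : Fin 5 → ZFSet.{u}) : Prop :=
  w 1 ⊆ w 4 ∧ ∅ ∈ w 1 ∧ (∀ p ∈ w 1, ∀ q ∈ w 4, q ⊆ p → q ∈ w 1) ∧
    (∀ p ∈ w 1, ∀ q ∈ w 1, ∃ r ∈ w 1, p ⊆ r ∧ q ⊆ r) ∧ (∀ D ∈ w 3, ∃ p ∈ w 1, p ∈ D) ∧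
    ∀ p ∈ w 0, ¬ p ∈ val (w 1) (w 2)

theorem QU_urel : URel KZ.{u} (fun _ _ (w : Fin 5 → ZFSet.{u}) => QU_rel w) := by
  unfold QU_rel
  apply_rules (transparency := .reducible) (maxDepth := 400) using is_poly

theorem st_QU : ST_QU.{u} := by
  intro M P K B F hM hP hK hB hF hFK
  have hE := st_KE M P K hM hP hK
  have hEF := st_KE M B F hM hB hF
  have h0 : ∅ ∈ P := hK.sub hK.top
  obtain ⟨Φ, hΦ, hFΦ⟩ := hFK
  obtain ⟨E, hEM, hE'⟩ := st_KD M P hM hP h0 1 (.neg (.mem 0 1)) (fun _ => Φ) (fun _ => hΦ) B hB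
  -- the set of dense subsets of `B`
  obtain ⟨DS, hDS, hDS'⟩ : ∃ DS ∈ M, ∀ D, D ∈ DS ↔ D ∈ M ∧ D ⊆ B ∧ ∀ p ∈ B, ∃ q ∈ D, p ⊆ q := by
    have hU : U KZ.{u} (fun N _ (b : ZFSet.{u}) =>
        (PW N b).sep (fun D => ∀ p ∈ b, ∃ q ∈ D, p ⊆ q)) := by
      apply_rules (transparency := .reducible) (maxDepth := 400) using is_poly
    refine ⟨_, in_zfset.1 (hU.closed hM.zf (a := B) (by simp [hB])), fun D => ?_⟩
    rw [ZFSet.mem_sep, mem_Pow]
    tauto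
  let Q : ZFSet.{u} := P.sep (fun q => ¬ ∃ r ∈ F, pair r q ∈ E)
  have hQ : Q ∈ Ext M F := by
    have hU : U KZ.{u} (fun _ _ (a : (ZFSet.{u} × ZFSet.{u}) × ZFSet.{u}) =>
        a.1.1.sep (fun q => ¬ ∃ r ∈ a.1.2, pair r q ∈ a.2)) := by
      apply_rules (transparency := .reducible) (maxDepth := 400) using is_poly
    have := hU.closed hEF.zf (a := ((P, F), E)) (by
      simp [sub_ext hM hB hF hP, sub_ext hM hB hF hEM, gen_mem_ext hM hB hF])
    exact in_zfset.1 this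
  have hQP : Q ⊆ P := fun q hq => (ZFSet.mem_sep.1 hq).1
  have hKQ : K ⊆ Q := by
    intro q hq
    refine ZFSet.mem_sep.2 ⟨hK.sub hq, ?_⟩
    rintro ⟨r, hr, hrq⟩
    have := (hE' r (hF.sub hr) q (hK.sub hq)).1 hrq K hK hq
    apply this
    change r ∈ val K Φ
    rw [← hFΦ]
    exact hr
  have hgen : IsGeneric (Ext M F) Q K := by
    refine ⟨hKQ, hK.top, fun p hp q hq hqp => hK.up p hp q (hQP hq) hqp, hK.dir, ?_⟩
    intro D hD hDQ hdense
    by_contra hcon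
    push Not at hcon
    obtain ⟨δ, hδ, hDδ⟩ := hD
    have hδM : chk δ ∈ M := chk_mem hM.zf hδ
    have hv : ∀ i, (![Pool.Agent.Helper27.SC.gname P, Φ, chk δ, chk DS, chk B] :
        Fin 5 → ZFSet.{u}) i ∈ M := by
      intro i
      fin_cases i
      · exact Pool.Agent.Helper27.SC.gname_memM hM.zf hP
      · exact hΦ
      · exact hδM
      · exact chk_mem hM.zf hDS
      · exact chk_mem hM.zf hB
    have hval : ∀ K', IsGeneric M P K' →
        (fun i => val K' ((![Pool.Agent.Helper27.SC.gname P, Φ, chk δ, chk DS, chk B] :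
          Fin 5 → ZFSet.{u}) i)) = ![K', val K' Φ, δ, DS, B] := by
      intro K' hK'
      funext i
      fin_cases i
      · exact Pool.Agent.Helper27.SC.val_gname hK'.top hK'.sub
      · rfl
      · exact val_chk' hM hP hK' hδ
      · exact val_chk' hM hP hK' hDS
      · exact val_chk' hM hP hK' hB
    obtain ⟨q0, hq0, hq0'⟩ := QU_kt QU_urel hM hP hK _ hv (by
      rw [hval K hK]
      refine ⟨?_, ?_, ?_, ?_, ?_, ?_⟩
      · change val K Φ ⊆ B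
        rw [← hFΦ]; exact hF.sub
      · change ∅ ∈ val K Φ
        rw [← hFΦ]; exact hF.top
      · change ∀ p ∈ val K Φ, ∀ q ∈ B, q ⊆ p → q ∈ val K Φ
        rw [← hFΦ]; exact hF.up
      · change ∀ p ∈ val K Φ, ∀ q ∈ val K Φ, ∃ r ∈ val K Φ, p ⊆ r ∧ q ⊆ r
        rw [← hFΦ]; exact hF.dir
      · change ∀ D ∈ DS, ∃ p ∈ val K Φ, p ∈ D
        rw [← hFΦ]
        intro D hD
        obtain ⟨h1, h2, h3⟩ := (hDS' D).1 hD
        exact hF.meets D h1 h2 h3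
      · change ∀ p ∈ K, ¬ p ∈ val (val K Φ) δ
        rw [← hFΦ, ← hDδ]
        exact hcon)
    obtain ⟨d, hd, hq0d⟩ := hdense q0 (hKQ hq0)
    -- `d ∈ val F δ`
    have hdP : d ∈ P := hQP (hDQ hd)
    have hdM : d ∈ M := hM.zf.trans P hP d hdP
    obtain ⟨r1, hr1, hr1'⟩ := st_KT M B F hM hB hF 2 (.mem 0 1) ![chk d, δ] (by
      intro i
      fin_cases i
      · exact chk_mem hM.zf hdM
      · exact hδ) (by
      change val F (chk d) ∈ val F δ
      rw [val_chk' hM hB hF hdM, ← hDδ]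
      exact hd)
    have hnE : pair r1 d ∉ E := fun h => (ZFSet.mem_sep.1 (hDQ hd)).2 ⟨r1, hr1, h⟩
    rw [hE' r1 (hF.sub hr1) d hdP] at hnE
    push Not at hnE
    obtain ⟨K', hK', hdK', hns⟩ := hnE
    have hr1K' : r1 ∈ val K' Φ := by
      by_contra h
      exact hns h
    have hq0K' : q0 ∈ K' := hK'.up d hdK' q0 (hK.sub hq0) hq0d
    have h5 := hq0' K' hK' hq0K'
    rw [hval K' hK'] at h5
    obtain ⟨g1, g2, g3, g4, g5, g6⟩ := h5
    have hF' : IsGeneric M B (val K' Φ) := by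
      refine ⟨g1, g2, g3, g4, fun D hD hDB hdn => ?_⟩
      exact g5 D ((hDS' D).2 ⟨hD, hDB, hdn⟩)
    have h6 := hr1' (val K' Φ) hF' hr1K'
    change val (val K' Φ) (chk d) ∈ val (val K' Φ) δ at h6
    rw [val_chk' hM hB hF' hdM] at h6
    exact g6 d hdK' h6
  refine ⟨Q, hQ, hQP, hgen, ?_⟩
  have hE2 := st_KE (Ext M F) Q K hEF hQ hgen
  have hFK : F ∈ Ext M K := ⟨Φ, hΦ, hFΦ⟩
  apply Set.Subset.antisymm
  · refine ext_le hE (fun x hx => ?_) (gen_mem_ext hM hP hK)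
    exact ext_le hE (fun y hy => sub_ext hM hP hK hy) hFK hx
  · refine ext_le hE2 (fun x hx => ?_) (gen_mem_ext hEF hQ hgen)
    exact sub_ext hEF hQ hgen (sub_ext hM hB hF hx)

end Pool.Agent.Helper13.GP
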